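import Pool.Agent.H17.FR.Targets
import Pool.Agent.H64.SC.Api

/-!
# MP_f2954d_ag, block B7: the logarithmic derivation
-/

open SC FR
open scoped Polynomial

namespace Pool.Agent.H97.FR

section

variable {k L : Type} [Field k] [Field L] [Algebra k L]

theorem aeval_red' (P : DV k L) (z : L) (hz : 0 ≤ P.ord z) (p : k[X]) :
    0 ≤ P.ord (Polynomial.aeval z p) ∧
      P.red (Polynomial.aeval z p) = Polynomial.aeval (P.red z) p := by
  induction p using Polynomial.induction_on' with
  | add p q hp hq =>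
    rw [map_add, map_add]
    exact ⟨P.ord_add_nonneg hp.1 hq.1, by rw [P.red_add hp.1 hq.1, hp.2, hq.2]⟩
  | monomial n a =>
    rw [Polynomial.aeval_monomial, Polynomial.aeval_monomial]
    have h1 : 0 ≤ P.ord (algebraMap k L a) := (P.ord_base a).ge
    have h2 := P.ord_pow_nonneg hz n
    exact ⟨P.ord_mul_nonneg h1 h2, by rw [P.red_mul h1 h2, P.red_algebraMap, P.red_pow hz]⟩

/-- logarithmic derivative -/
theorem logd_mul (D : Derivation k L L) {a b : L} (ha : a ≠ 0) (hb : b ≠ 0) :
    D (a * b) / (a * b) = D a / a + D b / b := by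
  rw [D.leibniz, smul_eq_mul, smul_eq_mul]
  field_simp
  ring

theorem logd_pow (D : Derivation k L L) {a : L} (ha : a ≠ 0) (n : ℕ) :
    D (a ^ n) / a ^ n = n * (D a / a) := by
  induction n with
  | zero => simp
  | succ n ih =>
    rw [pow_succ, logd_mul D (pow_ne_zero _ ha) ha, ih]
    push_cast
    ring

theorem logd_inv (D : Derivation k L L) {a : L} (ha : a ≠ 0) :
    D a⁻¹ / a⁻¹ = - (D a / a) := by
  have h := logd_mul D ha (inv_ne_zero ha)
  rw [mul_inv_cancel₀ ha, D.map_one_eq_zero, zero_div] at h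
  linear_combination -h

theorem logd_zpow (D : Derivation k L L) {a : L} (ha : a ≠ 0) (n : ℤ) :
    D (a ^ n) / a ^ n = n * (D a / a) := by
  obtain ⟨m, rfl | rfl⟩ := n.eq_nat_or_neg
  · rw [zpow_natCast, logd_pow D ha]
    push_cast
    rfl
  · rw [zpow_neg, zpow_natCast, logd_inv D (pow_ne_zero _ ha), logd_pow D ha]
    push_cast
    ring

end

theorem the : T_THE := by
  intro k L _ _ _ _ θ P t halg ⟨C, hC⟩ hθt ht0 htpos
  have hcL : CharZero L := charZero_of_injective_algebraMap (algebraMap k L).injective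
  -- a minimal value
  let S : Set ℤ := {n | ∃ a : L, 0 ≤ P.ord a ∧ θ a ≠ 0 ∧ P.ord (θ a) = n}
  have hSne : S.Nonempty := ⟨P.ord t, t, htpos.le, by rw [hθt]; exact ht0, by rw [hθt]⟩
  have hSbd : BddBelow S := ⟨C, by
    rintro n ⟨a, ha, ha', rfl⟩
    exact hC a ha ha'⟩
  set c := sInf S with hc
  obtain ⟨a₀, ha₀, ha₀', ha₀c⟩ : c ∈ S := Int.csInf_mem hSne hSbd
  have hle : ∀ a : L, 0 ≤ P.ord a → θ a ≠ 0 → c ≤ P.ord (θ a) := fun a ha ha' =>
    csInf_le hSbd ⟨a, ha, ha', rfl⟩
  have hcpos : 0 < c := by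
    by_contra hc0
    rw [not_lt] at hc0
    set π := P.unif with hπ
    have hπ0 : π ≠ 0 := P.unif_ne_zero
    have hπ1 : P.ord π = 1 := P.ord_unif
    set e : ℤ := P.ord t with he
    set u : L := t / π ^ e with hu
    have hπe : π ^ e ≠ 0 := zpow_ne_zero _ hπ0
    have hu0 : u ≠ 0 := div_ne_zero ht0 hπe
    have huord : P.ord u = 0 := by
      rw [hu, P.ord_div ht0 hπe, P.ord_zpow, hπ1, mul_one, sub_self]
    have htu : t = π ^ e * u := by rw [hu]; field_simp
    have heL : (e : L) ≠ 0 := by exact_mod_cast htpos.ne'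
    have hlog : (e : L) * (θ π / π) + θ u / u = 1 := by
      rw [← logd_zpow θ hπ0, ← logd_mul θ hπe hu0, ← htu, hθt, div_self ht0]
    have hθπ : θ π = π * ((1 - θ u / u) / e) := by
      field_simp
      field_simp at hlog
      linear_combination hlog
    have hordπ : θ π ≠ 0 → 1 + c ≤ P.ord (θ π) := by
      intro hne
      rw [hθπ] at hne ⊢
      have h1 : (1 - θ u / u) / e ≠ 0 := right_ne_zero_of_mul hne
      have h2 : 1 - θ u / u ≠ 0 := fun h => h1 (by rw [h, zero_div])
      have h3 : P.ord (e : L) = 0 := by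
        have := P.ord_base (e : k)
        rwa [map_intCast] at this
      rw [P.ord_mul _ _ hπ0 h1, hπ1, P.ord_div h2 heL, h3, sub_zero]
      have h4 : c ≤ P.ord (1 - θ u / u) := by
        rw [sub_eq_add_neg] at h2 ⊢
        refine P.ord_add_ge (fun _ => by rw [P.ord_one]; exact hc0) (fun h => ?_) h2
        have h5 : θ u ≠ 0 := by
          intro h6
          apply h
          rw [h6, zero_div, neg_zero]
        rw [P.ord_neg, P.ord_div h5 hu0, huord, sub_zero]
        exact hle u huord.ge h5
      omega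
    have hpos : ∀ a : L, 0 < P.ord a → θ a ≠ 0 → 1 + c ≤ P.ord (θ a) := by
      intro a ha hne
      have ha0 : a ≠ 0 := by
        rintro rfl
        exact hne θ.map_zero
      have e1 : a = π * (a / π) := by field_simp
      have h1 : 0 ≤ P.ord (a / π) := by
        rw [P.ord_div ha0 hπ0, hπ1]; omega
      rw [e1, θ.leibniz, smul_eq_mul, smul_eq_mul] at hne ⊢
      refine P.ord_add_ge (fun h => ?_) (fun h => ?_) hne
      · rw [P.ord_mul _ _ (left_ne_zero_of_mul h) (right_ne_zero_of_mul h), hπ1]
        have := hle _ h1 (right_ne_zero_of_mul h)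
        omega
      · rw [P.ord_mul _ _ (left_ne_zero_of_mul h) (right_ne_zero_of_mul h)]
        have := hordπ (right_ne_zero_of_mul h)
        omega
    -- all elements
    have hall : 1 + c ≤ P.ord (θ a₀) := by
      have hint : IsIntegral k (P.red a₀) := (halg.isAlgebraic (P.red a₀)).isIntegral
      set m := minpoly k (P.red a₀) with hm
      have hsep : m.Separable := (minpoly.irreducible hint).separable
      have hm0 : Polynomial.aeval (P.red a₀) m = 0 := minpoly.aeval k _
      have hm1 : Polynomial.aeval (P.red a₀) (Polynomial.derivative m) ≠ 0 :=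
        hsep.aeval_derivative_ne_zero hm0
      have h1 := aeval_red' P a₀ ha₀ m
      have h2 := aeval_red' P a₀ ha₀ (Polynomial.derivative m)
      rw [← h2.2] at hm1
      obtain ⟨h3, h4⟩ := P.red_ne_zero_iff.1 hm1
      have h5 : θ (Polynomial.aeval a₀ m) = Polynomial.aeval a₀ (Polynomial.derivative m) * θ a₀ := by
        rw [θ.map_aeval, smul_eq_mul]
      have h6 : θ (Polynomial.aeval a₀ m) ≠ 0 := by
        rw [h5]; exact mul_ne_zero h3 ha₀'
      have h7 : 0 < P.ord (Polynomial.aeval a₀ m) := by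
        rcases (P.red_eq_zero_iff h1.1).1 (h1.2.trans hm0) with h | h
        · exact absurd (by rw [h, θ.map_zero]) h6
        · exact h
      have h8 := hpos _ h7 h6
      rw [h5, P.ord_mul _ _ h3 ha₀', h4, zero_add] at h8
      exact h8
    omega
  refine ⟨fun a ha ha' => lt_of_lt_of_le hcpos (hle a ha ha'), fun g hg => ?_⟩
  have heL : ((P.ord t : ℤ) : L) ≠ 0 := by exact_mod_cast htpos.ne'
  set e : ℤ := P.ord t with he
  set n : ℤ := P.ord g with hn
  set u : L := g ^ e / t ^ n with hu
  have hge : g ^ e ≠ 0 := zpow_ne_zero _ hg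
  have htn : t ^ n ≠ 0 := zpow_ne_zero _ ht0
  have hu0 : u ≠ 0 := div_ne_zero hge htn
  have huord : P.ord u = 0 := by
    rw [hu, P.ord_div hge htn, P.ord_zpow, P.ord_zpow, ← he, ← hn, mul_comm, sub_self]
  have hgu : g ^ e = t ^ n * u := by rw [hu]; field_simp
  have hlog : (e : L) * (θ g / g) = n + θ u / u := by
    rw [← logd_zpow θ hg, hgu, logd_mul θ htn hu0, logd_zpow θ ht0, hθt, div_self ht0, mul_one]
  have hmap : algebraMap k L ((n : k) / (e : k)) = (n : L) / e := by
    rw [map_div₀, map_intCast, map_intCast]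
  have hdiff : θ g / g - (n : L) / e = (θ u / u) / e := by
    field_simp
    field_simp at hlog
    linear_combination hlog
  unfold Cong
  rw [hmap]
  by_cases hθu : θ u = 0
  · left
    rw [hθu, zero_div, zero_div] at hdiff
    exact sub_eq_zero.1 hdiff
  · right
    have h3 : P.ord (e : L) = 0 := by
      have := P.ord_base (e : k)
      rwa [map_intCast] at this
    rw [hdiff, P.ord_div (div_ne_zero hθu hu0) heL, P.ord_div hθu hu0, huord, h3, sub_zero,
      sub_zero]
    exact lt_of_lt_of_le hcpos (hle u huord.ge hθu)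

end Pool.Agent.H97.FR
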