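import Pool.Agent.H17.FR.Targets
import Pool.Agent.H64.SC.Api

/-!
# MP_f2954d_ag, block B7: a function with poles at given places
-/

open SC FR
open scoped Polynomial

namespace Pool.Agent.H97.FR

variable {k L : Type} [Field k] [Field L] [Algebra k L]

theorem finite_adjoin [Algebra.EssFiniteType k L] (h1 : Algebra.trdeg k L = 1) (x : L)
    (hx : Transcendental k x) : FiniteDimensional (IntermediateField.adjoin k {x}) L := by
  set E := IntermediateField.adjoin k {x} with hE
  have hxE : x ∈ E := IntermediateField.mem_adjoin_simple_self k x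
  have h2 : Algebra.trdeg k E ≠ 0 := by
    rw [trdeg_ne_zero_iff]
    refine ⟨⟨⟨x, hxE⟩, ?_⟩⟩
    intro halg
    exact hx (halg.algebraMap (A := L))
  have h3 := trdeg_add_eq k E (A := L)
  rw [h1] at h3
  have h4 : Algebra.trdeg E L = 0 := by
    by_contra h
    have h5 : (1 : Cardinal) ≤ Algebra.trdeg k E := Cardinal.one_le_iff_ne_zero.2 h2
    have h6 : (1 : Cardinal) ≤ Algebra.trdeg E L := Cardinal.one_le_iff_ne_zero.2 h
    have h7 : (1 + 1 : Cardinal) ≤ 1 := (add_le_add h5 h6).trans h3.le
    have h8 : ((2 : ℕ) : Cardinal) ≤ ((1 : ℕ) : Cardinal) := by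
      have : ((2 : ℕ) : Cardinal) = 1 + 1 := by norm_num
      rw [this, Nat.cast_one]
      exact h7
    have := Nat.cast_le.1 h8
    omega
  rw [trdeg_eq_zero_iff] at h4
  have h5 : Algebra.EssFiniteType E L := Algebra.EssFiniteType.of_comp k E L
  exact Algebra.finite_of_essFiniteType_of_isAlgebraic

theorem aeval_red (P : DV k L) (z : L) (hz : 0 ≤ P.ord z) (p : k[X]) :
    0 ≤ P.ord (Polynomial.aeval z p) ∧
      P.red (Polynomial.aeval z p) = Polynomial.aeval (P.red z) p := by
  induction p using Polynomial.induction_on' with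
  | add p q hp hq =>
    rw [map_add, map_add]
    exact ⟨P.ord_add_nonneg hp.1 hq.1, by rw [P.red_add hp.1 hq.1, hp.2, hq.2]⟩
  | monomial n a =>
    rw [Polynomial.aeval_monomial, Polynomial.aeval_monomial]
    have h1 : 0 ≤ P.ord (algebraMap k L a) := (P.ord_base a).ge
    have h2 := P.ord_pow_nonneg hz n
    exact ⟨P.ord_mul_nonneg h1 h2, by rw [P.red_mul h1 h2, P.red_algebraMap, P.red_pow hz]⟩

theorem aeval_pole (P : DV k L) (z : L) (hz : P.ord z < 0) (q : k[X]) (hq : q.Monic) :
    Polynomial.aeval z q ≠ 0 ∧ P.ord (Polynomial.aeval z q) = q.natDegree * P.ord z := by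
  have hz0 : z ≠ 0 := by
    rintro rfl
    rw [P.ord_zero] at hz
    exact lt_irrefl _ hz
  have hsum : Polynomial.aeval z q = z ^ q.natDegree +
      ∑ i ∈ Finset.range q.natDegree, q.coeff i • z ^ i := by
    rw [Polynomial.aeval_eq_sum_range, Finset.sum_range_succ, hq.coeff_natDegree, one_smul,
      add_comm]
  have hpow : z ^ q.natDegree ≠ 0 := pow_ne_zero _ hz0
  have h := P.ord_add_eq_left hpow (y := ∑ i ∈ Finset.range q.natDegree, q.coeff i • z ^ i) ?_
  · rw [hsum]
    exact ⟨h.1, by rw [h.2, P.ord_pow]⟩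
  · intro hy
    have h1 : ((q.natDegree : ℤ) - 1) * P.ord z ≤
        P.ord (∑ i ∈ Finset.range q.natDegree, q.coeff i • z ^ i) := by
      refine P.ord_sum_ge _ _ (fun i hi hne => ?_) hy
      rw [Finset.mem_range] at hi
      rw [Algebra.smul_def] at hne ⊢
      rw [P.ord_mul _ _ (left_ne_zero_of_mul hne) (right_ne_zero_of_mul hne), P.ord_base,
        P.ord_pow, zero_add]
      have : (i : ℤ) ≤ (q.natDegree : ℤ) - 1 := by omega
      nlinarith
    rw [P.ord_pow]
    nlinarith

theorem chx (h1 : T_V6a) : T_CHX := by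
  intro k L _ _ _ _ _ htr S hS
  classical
  obtain ⟨z, hz⟩ : ∃ z : L, Transcendental k z := by
    have : Algebra.trdeg k L ≠ 0 := by rw [htr]; exact one_ne_zero
    rw [trdeg_ne_zero_iff] at this
    exact this.transcendental
  let qP : DV k L → k[X] := fun P => if 0 ≤ P.ord z then minpoly k (P.red z) else 1
  have hint : ∀ P : DV k L, IsIntegral k (P.red z) := by
    intro P
    have := h1 k L htr P
    exact Algebra.IsIntegral.isIntegral _
  have hmon : ∀ P, (qP P).Monic := by
    intro P
    simp only [qP]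
    split_ifs
    · exact minpoly.monic (hint P)
    · exact Polynomial.monic_one
  set q : k[X] := ∏ P ∈ hS.toFinset, qP P with hq
  have hqm : q.Monic := Polynomial.monic_prod_of_monic _ _ fun P _ => hmon P
  have hne : ∀ p : k[X], p ≠ 0 → Polynomial.aeval z p ≠ 0 := fun p hp h => hz ⟨p, hp, h⟩
  have hqz : Polynomial.aeval z q ≠ 0 := hne q hqm.ne_zero
  set x : L := z + (Polynomial.aeval z q)⁻¹ with hx
  have hrel : (x - z) * Polynomial.aeval z q = 1 := by
    rw [hx, add_sub_cancel_left, inv_mul_cancel₀ hqz]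
  have hxt : Transcendental k x := by
    intro halg
    apply hz
    set E := IntermediateField.adjoin k {x} with hE
    let x' : E := ⟨x, IntermediateField.mem_adjoin_simple_self k x⟩
    have hEalg : Algebra.IsAlgebraic k E := IntermediateField.isAlgebraic_adjoin_simple
      halg.isIntegral
    have hzE : IsAlgebraic E z := by
      refine ⟨(Polynomial.C x' - Polynomial.X) * q.map (algebraMap k E) - 1, ?_, ?_⟩
      · intro h0
        have h2 : (Polynomial.C x' - Polynomial.X) * q.map (algebraMap k E) = 1 :=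
          sub_eq_zero.1 h0
        have h3 : IsUnit (Polynomial.C x' - Polynomial.X : E[X]) := IsUnit.of_mul_eq_one _ h2
        have h4 := Polynomial.natDegree_eq_zero_of_isUnit h3
        rw [← neg_sub, Polynomial.natDegree_neg, Polynomial.natDegree_X_sub_C] at h4
        exact one_ne_zero h4
      · rw [map_sub, map_mul, map_sub, Polynomial.aeval_C, Polynomial.aeval_X, map_one,
          Polynomial.aeval_map_algebraMap]
        change (x - z) * _ - 1 = 0
        rw [hrel, sub_self]
    exact hzE.restrictScalars k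
  refine ⟨x, hxt, finite_adjoin htr x hxt, fun P hP => ?_⟩
  have hz0 : z ≠ 0 := by
    rintro rfl
    exact hz isAlgebraic_zero
  by_cases hPz : 0 ≤ P.ord z
  · have hpos : 0 < P.ord (Polynomial.aeval z q) := by
      have h2 : P.red (Polynomial.aeval z q) = 0 := by
        rw [(aeval_red P z hPz q).2, hq, map_prod]
        refine Finset.prod_eq_zero (i := P) (hS.mem_toFinset.2 hP) ?_
        simp only [qP, if_pos hPz]
        exact minpoly.aeval k _
      rcases (P.red_eq_zero_iff (aeval_red P z hPz q).1).1 h2 with h3 | h3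
      · exact absurd h3 hqz
      · exact h3
    have hinv : P.ord (Polynomial.aeval z q)⁻¹ < 0 := by
      rw [P.ord_inv]; omega
    have h2 := P.ord_add_eq_left (inv_ne_zero hqz) (y := z) fun _ => by omega
    rw [hx, add_comm, h2.2]
    exact hinv
  · rw [not_le] at hPz
    have h2 := (aeval_pole P z hPz q hqm).2
    have hinv : 0 ≤ P.ord (Polynomial.aeval z q)⁻¹ := by
      rw [P.ord_inv, h2]
      nlinarith [Int.natCast_nonneg q.natDegree]
    have h3 := P.ord_add_eq_left hz0 (y := (Polynomial.aeval z q)⁻¹) fun _ => by omega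
    rw [hx, h3.2]
    exact hPz

end Pool.Agent.H97.FR
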