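import Pool.Agent.H17.FR.Targets

/-!
# MP_f2954d_ag, block B7: the derivation `d/dx`
-/

open SC FR
open scoped TensorProduct Polynomial

namespace Pool.Agent.H97.FR

open IntermediateField algebraAdjoinAdjoin

theorem exists_der {k L : Type} [Field k] [CharZero k] [Field L] [Algebra k L] (x : L)
    (hx : Transcendental k x) [FiniteDimensional (IntermediateField.adjoin k {x}) L] :
    ∃ D : Derivation k L L, D x = 1 := by
  let S := Algebra.adjoin k {x}
  let e : k[X] ≃ₐ[k] S := Polynomial.algEquivOfTranscendental k x hx
  let DS : Derivation k S L := Derivation.mk'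
    ((S.val.toLinearMap ∘ₗ e.toLinearMap) ∘ₗ
      (Polynomial.derivative (R := k)) ∘ₗ e.symm.toLinearMap) (by
      intro a b
      simp only [LinearMap.comp_apply, AlgEquiv.toLinearMap_apply, AlgHom.toLinearMap_apply,
        map_mul, Polynomial.derivative_mul, map_add, AlgEquiv.apply_symm_apply]
      rw [add_comm]
      congr 1
      exact mul_comm _ _)
  have h1 : CharZero (IntermediateField.adjoin k {x}) := by infer_instance
  have h2 : Algebra.IsAlgebraic (IntermediateField.adjoin k {x}) L := by infer_instance
  have h3 : Algebra.IsSeparable (IntermediateField.adjoin k {x}) L := by infer_instance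
  have h4 : Algebra.FormallyEtale (IntermediateField.adjoin k {x}) L :=
    Algebra.FormallyEtale.of_isSeparable _ _
  have h5 : Algebra.FormallyEtale S (IntermediateField.adjoin k {x}) :=
    Algebra.FormallyEtale.of_isLocalization (nonZeroDivisors S)
  have h6 : Algebra.FormallyEtale S L :=
    Algebra.FormallyEtale.comp S (IntermediateField.adjoin k {x}) L
  let ℓ : Ω[S⁄k] →ₗ[S] L := DS.liftKaehlerDifferential
  let φ : Ω[L⁄k] →ₗ[L] L := (ℓ.liftBaseChange L) ∘ₗ
    (KaehlerDifferential.tensorKaehlerEquivOfFormallyEtale k S L).symm.toLinearMap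
  refine ⟨φ.compDer (KaehlerDifferential.D k L), ?_⟩
  let s : S := ⟨x, Algebra.self_mem_adjoin_singleton k x⟩
  have hs : e Polynomial.X = s := Polynomial.algEquivOfTranscendental_apply_X k x hx
  change (ℓ.liftBaseChange L) ((KaehlerDifferential.tensorKaehlerEquivOfFormallyEtale k S L).symm
    (KaehlerDifferential.D k L (algebraMap S L s))) = 1
  rw [KaehlerDifferential.tensorKaehlerEquivOfFormallyEtale_symm_D_algebraMap,
    LinearMap.liftBaseChange_tmul, one_smul]
  change DS.liftKaehlerDifferential (KaehlerDifferential.D k S s) = 1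
  rw [Derivation.liftKaehlerDifferential_comp_D]
  change S.val (e (Polynomial.derivative (e.symm s))) = 1
  rw [← hs, AlgEquiv.symm_apply_apply, Polynomial.derivative_X, map_one, map_one]

theorem der : T_DER := by
  intro k L _ _ _ _ x hx hfin
  obtain ⟨D, hD⟩ := exists_der x hx
  refine ⟨D, hD, fun a ha => ?_⟩
  induction ha using IntermediateField.adjoin_induction with
  | mem y hy =>
    rw [Set.mem_singleton_iff.1 hy, hD]
    exact one_mem _
  | algebraMap c =>
    rw [D.map_algebraMap]
    exact zero_mem _
  | add y z hy hz hy' hz' =>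
    rw [map_add]
    exact add_mem hy' hz'
  | mul y z hy hz hy' hz' =>
    rw [D.leibniz, smul_eq_mul, smul_eq_mul]
    exact add_mem (mul_mem hy hz') (mul_mem hz hy')
  | inv y hy hy' =>
    rw [D.leibniz_inv, smul_eq_mul]
    exact mul_mem (neg_mem (pow_mem (inv_mem hy) 2)) hy'

end Pool.Agent.H97.FR
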